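import Pool.Agent.H94.RTB.Targets2

/-!
# Row R_DEC: a bounded function is a finite sum of bounded eigenfunctions up to a function with
small correlations in square mean
-/

set_option autoImplicit false

namespace Pool.Agent.H35.RTB

open Pool.Agent.H94.RTB MeasureTheory Filter Topology Finset
open scoped ComplexConjugate NNReal

universe v

/-! ### Integrals along an invertible transformation -/

section sys

variable {Ω : Type v} [MeasurableSpace Ω] {m : Measure Ω} {S : Ω ≃ᵐ Ω}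

theorem int_iter (hS : MeasurePreserving S m m) : ∀ (n : ℕ) (g : Ω → ℂ),
    ∫ ω, g (S^[n] ω) ∂m = ∫ ω, g ω ∂m := by
  intro n
  induction n with
  | zero => intro g; rfl
  | succ n ih =>
    intro g
    have h1 : ∫ ω, g (S^[n + 1] ω) ∂m = ∫ ω, (fun x => g (S^[n] x)) (S ω) ∂m := by
      refine integral_congr_ae (Eventually.of_forall fun ω => ?_)
      show g (S^[n + 1] ω) = g (S^[n] (S ω))
      rw [Function.iterate_succ_apply]
    rw [h1, hS.integral_comp' (fun x => g (S^[n] x))]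
    exact ih g

theorem meas_iter (n : ℕ) : Measurable (S^[n] : Ω → Ω) := S.measurable.iterate n

theorem int_bd [IsFiniteMeasure m] {f : Ω → ℂ} (hf : Measurable f) {C : ℝ}
    (hC : ∀ ω, ‖f ω‖ ≤ C) : Integrable f m :=
  Integrable.of_bound hf.aestronglyMeasurable C (Eventually.of_forall hC)

theorem int_mul [IsFiniteMeasure m] {f g : Ω → ℂ} (hf : Measurable f) (hg : Measurable g)
    {C D : ℝ} (hC : ∀ ω, ‖f ω‖ ≤ C) (hD : ∀ ω, ‖g ω‖ ≤ D) :
    Integrable (fun ω => f ω * conj (g ω)) m := by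
  have hm : Measurable fun ω => f ω * conj (g ω) :=
    hf.mul (Complex.continuous_conj.measurable.comp hg)
  refine int_bd hm (C := C * D) fun ω => ?_
  rw [norm_mul, RCLike.norm_conj]
  exact mul_le_mul (hC ω) (hD ω) (norm_nonneg _) ((norm_nonneg _).trans (hC ω))

theorem ae_iter (hS : MeasurePreserving S m m) {φ : Ω → ℂ} {ζ : ℂ}
    (h : ∀ᵐ ω ∂m, φ (S ω) = ζ * φ ω) : ∀ d : ℕ, ∀ᵐ ω ∂m, φ (S^[d] ω) = ζ ^ d * φ ω := by
  intro d
  induction d with
  | zero =>
    refine Eventually.of_forall fun ω => ?_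
    simp
  | succ d ih =>
    have h1 : ∀ᵐ ω ∂m, φ (S^[d] (S ω)) = ζ ^ d * φ (S ω) :=
      hS.quasiMeasurePreserving.tendsto_ae.eventually ih
    filter_upwards [h, h1] with ω h2 h3
    rw [Function.iterate_succ_apply, h3, h2]
    ring

end sys

/-- the correlation sequence on the integers -/
noncomputable def gamZ {Ω : Type v} [MeasurableSpace Ω] (m : Measure Ω) (S : Ω → Ω) (H : Ω → ℂ)
    (n : ℤ) : ℂ := if 0 ≤ n then gam m S H n.toNat else conj (gam m S H (-n).toNat)

section corr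

variable {Ω : Type v} [MeasurableSpace Ω] {m : Measure Ω} {S : Ω ≃ᵐ Ω} {H : Ω → ℂ}

theorem gamZ_nat (hS : MeasurePreserving S m m) (a b : ℕ) :
    ∫ ω, H (S^[a] ω) * conj (H (S^[b] ω)) ∂m = gamZ m S H ((a : ℤ) - b) := by
  rcases le_or_gt b a with h | h
  · obtain ⟨d, rfl⟩ := Nat.exists_eq_add_of_le h
    have h1 : ∫ ω, H (S^[b + d] ω) * conj (H (S^[b] ω)) ∂m =
        ∫ ω, (fun x => H (S^[d] x) * conj (H x)) (S^[b] ω) ∂m := by
      refine integral_congr_ae (Eventually.of_forall fun ω => ?_)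
      show H (S^[b + d] ω) * conj (H (S^[b] ω)) = H (S^[d] (S^[b] ω)) * conj (H (S^[b] ω))
      rw [add_comm b d, Function.iterate_add_apply]
    rw [h1, int_iter hS b (fun x => H (S^[d] x) * conj (H x))]
    have h2 : ((b + d : ℕ) : ℤ) - b = (d : ℤ) := by push_cast; ring
    rw [h2]
    unfold gamZ
    rw [if_pos (Int.natCast_nonneg d), Int.toNat_natCast]
    rfl
  · obtain ⟨d, rfl⟩ := Nat.exists_eq_add_of_lt h
    have h1 : ∫ ω, H (S^[a] ω) * conj (H (S^[a + d + 1] ω)) ∂m =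
        ∫ ω, (fun x => H x * conj (H (S^[d + 1] x))) (S^[a] ω) ∂m := by
      refine integral_congr_ae (Eventually.of_forall fun ω => ?_)
      show H (S^[a] ω) * conj (H (S^[a + d + 1] ω)) = H (S^[a] ω) * conj (H (S^[d + 1] (S^[a] ω)))
      rw [show a + d + 1 = (d + 1) + a by ring, Function.iterate_add_apply]
    rw [h1, int_iter hS a (fun x => H x * conj (H (S^[d + 1] x)))]
    have h2 : ((a : ℕ) : ℤ) - ((a + d + 1 : ℕ) : ℤ) = -((d + 1 : ℕ) : ℤ) := by push_cast; ring
    rw [h2]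
    unfold gamZ
    rw [if_neg (by push_cast; omega), neg_neg, Int.toNat_natCast]
    unfold gam
    rw [← integral_conj]
    refine integral_congr_ae (Eventually.of_forall fun ω => ?_)
    show H ω * conj (H (S^[d + 1] ω)) = conj (H (S^[d + 1] ω) * conj (H ω))
    rw [map_mul, Complex.conj_conj]
    ring

theorem pd_gamZ [IsProbabilityMeasure m] (hS : MeasurePreserving S m m) (hH : Measurable H)
    (hb : ∀ ω, ‖H ω‖ ≤ 1) : PD (gamZ m S H) := by
  intro s c
  set M : ℤ := ∑ i ∈ s, |i| with hM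
  have hle : ∀ i ∈ s, 0 ≤ i + M := by
    intro i hi
    have h1 : |i| ≤ M := Finset.single_le_sum (f := fun i : ℤ => |i|)
      (fun j _ => abs_nonneg j) hi
    have h2 : -|i| ≤ i := neg_abs_le i
    linarith
  set a : ℤ → ℕ := fun i => (i + M).toNat with ha
  have hmi : ∀ i : ℤ, Measurable fun ω => c i * H (S^[a i] ω) := fun i =>
    (hH.comp (meas_iter (a i))).const_mul _
  have hbi : ∀ (i : ℤ) (ω : Ω), ‖c i * H (S^[a i] ω)‖ ≤ ‖c i‖ := by
    intro i ω
    rw [norm_mul]
    exact mul_le_of_le_one_right (norm_nonneg _) (hb _)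
  refine ⟨∫ ω, ‖∑ i ∈ s, c i * H (S^[a i] ω)‖ ^ 2 ∂m,
    integral_nonneg fun _ => sq_nonneg _, ?_⟩
  have h1 : ∀ i ∈ s, ∀ j ∈ s, c i * conj (c j) * gamZ m S H (i - j) =
      ∫ ω, (c i * H (S^[a i] ω)) * conj (c j * H (S^[a j] ω)) ∂m := by
    intro i hi j hj
    have h2 : i - j = (a i : ℤ) - a j := by
      have e1 : (a i : ℤ) = i + M := Int.toNat_of_nonneg (hle i hi)
      have e2 : (a j : ℤ) = j + M := Int.toNat_of_nonneg (hle j hj)
      rw [e1, e2]; ring
    rw [h2, ← gamZ_nat hS, ← integral_const_mul]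
    refine integral_congr_ae (Eventually.of_forall fun ω => ?_)
    show c i * conj (c j) * (H (S^[a i] ω) * conj (H (S^[a j] ω))) =
      c i * H (S^[a i] ω) * conj (c j * H (S^[a j] ω))
    rw [map_mul]
    ring
  have h3 : ∀ i j : ℤ, Integrable (fun ω => (c i * H (S^[a i] ω)) *
      conj (c j * H (S^[a j] ω))) m := fun i j => int_mul (hmi i) (hmi j) (hbi i) (hbi j)
  calc ∑ i ∈ s, ∑ j ∈ s, c i * conj (c j) * gamZ m S H (i - j) =
      ∑ i ∈ s, ∑ j ∈ s, ∫ ω, (c i * H (S^[a i] ω)) * conj (c j * H (S^[a j] ω)) ∂m :=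
        Finset.sum_congr rfl fun i hi => Finset.sum_congr rfl fun j hj => h1 i hi j hj
    _ = ∫ ω, ∑ i ∈ s, ∑ j ∈ s, (c i * H (S^[a i] ω)) * conj (c j * H (S^[a j] ω)) ∂m := by
        rw [integral_finsetSum s fun i _ => integrable_finsetSum s fun j _ => h3 i j]
        refine Finset.sum_congr rfl fun i _ => ?_
        rw [integral_finsetSum s fun j _ => h3 i j]
    _ = ∫ ω, ((‖∑ i ∈ s, c i * H (S^[a i] ω)‖ ^ 2 : ℝ) : ℂ) ∂m := by
        refine integral_congr_ae (Eventually.of_forall fun ω => ?_)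
        show ∑ i ∈ s, ∑ j ∈ s, (c i * H (S^[a i] ω)) * conj (c j * H (S^[a j] ω)) =
          ((‖∑ i ∈ s, c i * H (S^[a i] ω)‖ ^ 2 : ℝ) : ℂ)
        rw [← Finset.sum_mul_sum, ← map_sum, Complex.mul_conj, Complex.normSq_eq_norm_sq]
    _ = ((∫ ω, ‖∑ i ∈ s, c i * H (S^[a i] ω)‖ ^ 2 ∂m : ℝ) : ℂ) := integral_complex_ofReal

end corr

/-! ### Characters -/

theorem fourier_norm (n : ℤ) (x : UnitAddCircle) : ‖(fourier n x : ℂ)‖ = 1 := by
  rw [fourier_apply]
  exact Circle.norm_coe _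

theorem fourier_pow (n : ℕ) (x : UnitAddCircle) :
    (fourier (n : ℤ) x : ℂ) = (fourier 1 x : ℂ) ^ n := by
  induction n with
  | zero => simp
  | succ n ih =>
    have : ((n + 1 : ℕ) : ℤ) = (n : ℤ) + 1 := by push_cast; ring
    rw [this, fourier_add, ih, pow_succ]

theorem fourier_inj {x y : UnitAddCircle} (h : (fourier 1 x : ℂ) = fourier 1 y) : x = y := by
  rw [fourier_apply, fourier_apply, one_smul, one_smul] at h
  exact AddCircle.injective_toCircle one_ne_zero (Circle.coe_injective h)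

theorem conj_fourier (n : ℤ) (x : UnitAddCircle) :
    conj (fourier n x : ℂ) = fourier (-n) x := fourier_neg.symm

/-- the means of the powers of a number of absolute value one -/
theorem mean_pow {w : ℂ} (hw : ‖w‖ = 1) : Tendsto (fun N : ℕ => (∑ n ∈ Icc 1 N, w ^ n) / N)
    atTop (𝓝 (if w = 1 then 1 else 0)) := by
  by_cases h : w = 1
  · rw [if_pos h]
    refine tendsto_const_nhds.congr' ?_
    filter_upwards [eventually_ge_atTop 1] with N hN
    rw [h]
    simp only [one_pow, Finset.sum_const, Nat.card_Icc, add_tsub_cancel_right, nsmul_eq_mul,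
      mul_one]
    rw [div_self]
    exact_mod_cast (by omega : N ≠ 0)
  · rw [if_neg h]
    have h0 : w - 1 ≠ 0 := sub_ne_zero.2 h
    have hn : 0 < ‖w - 1‖ := norm_pos_iff.2 h0
    have key : ∀ N : ℕ, (w - 1) * ∑ n ∈ Icc 1 N, w ^ n = w ^ (N + 1) - w := by
      intro N
      induction N with
      | zero => simp
      | succ N ih =>
        rw [Finset.sum_Icc_succ_top (by omega), mul_add, ih]
        ring
    have hb : ∀ N : ℕ, ‖(∑ n ∈ Icc 1 N, w ^ n) / N‖ ≤ 2 / ‖w - 1‖ / N := by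
      intro N
      rw [norm_div, Complex.norm_natCast]
      apply div_le_div_of_nonneg_right _ (Nat.cast_nonneg N)
      rw [le_div_iff₀ hn, mul_comm, ← norm_mul, key N]
      calc ‖w ^ (N + 1) - w‖ ≤ ‖w ^ (N + 1)‖ + ‖w‖ := norm_sub_le _ _
        _ = 2 := by rw [norm_pow, hw]; norm_num
    refine squeeze_zero_norm hb ?_
    exact tendsto_const_div_atTop_nhds_zero_nat _

section spectral

variable {Ω : Type v} [MeasurableSpace Ω] {m : Measure Ω} {S : Ω ≃ᵐ Ω} {H : Ω → ℂ}

theorem sq_int_le [IsProbabilityMeasure m] {h : Ω → ℝ} (hm : Measurable h) {C : ℝ}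
    (hb : ∀ ω, |h ω| ≤ C) : (∫ ω, h ω ∂m) ^ 2 ≤ ∫ ω, h ω ^ 2 ∂m := by
  have i1 : Integrable h m := Integrable.of_bound hm.aestronglyMeasurable C
    (Eventually.of_forall fun ω => by rw [Real.norm_eq_abs]; exact hb ω)
  have i2 : Integrable (fun ω => h ω ^ 2) m :=
    Integrable.of_bound (hm.pow_const 2).aestronglyMeasurable (C ^ 2)
      (Eventually.of_forall fun ω => by
        rw [Real.norm_eq_abs, abs_pow]
        exact pow_le_pow_left₀ (abs_nonneg _) (hb ω) 2)
  set c : ℝ := ∫ ω, h ω ∂m with hc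
  have h1 : 0 ≤ ∫ ω, (h ω - c) ^ 2 ∂m := integral_nonneg fun _ => sq_nonneg _
  have h2 : ∫ ω, (h ω - c) ^ 2 ∂m = (∫ ω, h ω ^ 2 ∂m) - c ^ 2 := by
    have e : (fun ω => (h ω - c) ^ 2) = fun ω => h ω ^ 2 - ((2 * c) * h ω - c ^ 2) := by
      funext ω; ring
    have i3 : Integrable (fun ω => (2 * c) * h ω - c ^ 2) m :=
      (i1.const_mul _).sub (integrable_const _)
    rw [e, integral_sub i2 i3, integral_sub (i1.const_mul _) (integrable_const _),
      integral_const_mul, ← hc]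
    simp
    ring
  linarith

/-- convergence of the pairings -/
theorem pair_lim [IsProbabilityMeasure m] {f : ℕ → Ω → ℂ} {φ g : Ω → ℂ}
    (hf : ∀ N, Measurable (f N)) (hφ : Measurable φ) (hg : Measurable g)
    (bf : ∀ N ω, ‖f N ω‖ ≤ 1) (bφ : ∀ ω, ‖φ ω‖ ≤ 1) (bg : ∀ ω, ‖g ω‖ ≤ 1)
    (h : Tendsto (fun N : ℕ => ∫ ω, ‖f N ω - φ ω‖ ^ 2 ∂m) atTop (𝓝 0)) :
    Tendsto (fun N : ℕ => ∫ ω, g ω * conj (f N ω) ∂m) atTop
      (𝓝 (∫ ω, g ω * conj (φ ω) ∂m)) := by
  have hs : Tendsto (fun N : ℕ => Real.sqrt (∫ ω, ‖f N ω - φ ω‖ ^ 2 ∂m)) atTop (𝓝 0) := by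
    have := h.sqrt
    rwa [Real.sqrt_zero] at this
  rw [tendsto_iff_norm_sub_tendsto_zero]
  refine squeeze_zero (fun _ => norm_nonneg _) (fun N => ?_) hs
  have hd : ∀ ω, ‖f N ω - φ ω‖ ≤ 2 := fun ω =>
    (norm_sub_le _ _).trans (by linarith [bf N ω, bφ ω])
  have hmd : Measurable fun ω => ‖f N ω - φ ω‖ := ((hf N).sub hφ).norm
  have i1 := int_mul (m := m) hg (hf N) bg (bf N)
  have i2 := int_mul (m := m) hg hφ bg bφ
  rw [← integral_sub i1 i2]
  have h1 : ‖∫ ω, g ω * conj (f N ω) - g ω * conj (φ ω) ∂m‖ ≤ ∫ ω, ‖f N ω - φ ω‖ ∂m := by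
    apply norm_integral_le_of_norm_le
    · exact Integrable.of_bound hmd.aestronglyMeasurable 2
        (Eventually.of_forall fun ω => by rw [norm_norm]; exact hd ω)
    · refine Eventually.of_forall fun ω => ?_
      have : g ω * conj (f N ω) - g ω * conj (φ ω) = g ω * conj (f N ω - φ ω) := by
        rw [map_sub]; ring
      rw [this, norm_mul, RCLike.norm_conj]
      exact mul_le_of_le_one_left (norm_nonneg _) (bg ω)
  refine h1.trans (Real.le_sqrt_of_sq_le ?_)
  exact sq_int_le hmd (C := 2) fun ω => by rw [abs_of_nonneg (norm_nonneg _)]; exact hd ω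

/-- the twisted average -/
theorem av_meas (hH : Measurable H) (c : ℕ → ℂ) (N : ℕ) :
    Measurable (Av S H c N) := by
  unfold Av
  refine Measurable.div_const ?_ _
  exact Finset.measurable_sum _ fun n _ => (hH.comp (meas_iter n)).const_mul _

theorem av_bd (hb : ∀ ω, ‖H ω‖ ≤ 1) {c : ℕ → ℂ} (hc : ∀ n, ‖c n‖ ≤ 1) (N : ℕ) (ω : Ω) :
    ‖Av S H c N ω‖ ≤ 1 := by
  unfold Av
  rw [norm_div, Complex.norm_natCast]
  apply div_le_one_of_le₀ _ (Nat.cast_nonneg N)
  calc ‖∑ n ∈ Icc 1 N, c n * H (S^[n] ω)‖ ≤ ∑ n ∈ Icc 1 N, ‖c n * H (S^[n] ω)‖ :=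
        norm_sum_le _ _
    _ ≤ ∑ _n ∈ Icc 1 N, (1 : ℝ) := by
        refine Finset.sum_le_sum fun n _ => ?_
        rw [norm_mul]
        exact mul_le_one₀ (hc n) (norm_nonneg _) (hb _)
    _ = N := by simp

/-- the pairing with a twisted average -/
theorem pair_av [IsProbabilityMeasure m] (hH : Measurable H) (hb : ∀ ω, ‖H ω‖ ≤ 1) {g : Ω → ℂ}
    (hg : Measurable g) (bg : ∀ ω, ‖g ω‖ ≤ 1) (c : ℕ → ℂ) (N : ℕ) :
    ∫ ω, g ω * conj (Av S H c N ω) ∂m =
      (∑ n ∈ Icc 1 N, conj (c n) * ∫ ω, g ω * conj (H (S^[n] ω)) ∂m) / N := by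
  have i1 : ∀ n, Integrable (fun ω => g ω * conj (H (S^[n] ω))) m := fun n =>
    int_mul hg (hH.comp (meas_iter n)) bg (fun ω => hb _)
  have e : (fun ω => g ω * conj (Av S H c N ω)) =
      fun ω => (∑ n ∈ Icc 1 N, conj (c n) * (g ω * conj (H (S^[n] ω)))) / N := by
    funext ω
    unfold Av
    rw [map_div₀, map_sum, Complex.conj_natCast, mul_div_assoc', Finset.mul_sum]
    congr 1
    refine Finset.sum_congr rfl fun n _ => ?_
    rw [map_mul]
    ring
  rw [e, integral_div, integral_finsetSum _ fun n _ => (i1 n).const_mul _]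
  congr 1
  exact Finset.sum_congr rfl fun n _ => integral_const_mul _ _

/-- (a) the pairings of the translates of `H` with the eigenfunction -/
theorem pair_eig [IsProbabilityMeasure m] (hS : MeasurePreserving S m m) (hH : Measurable H)
    (hb : ∀ ω, ‖H ω‖ ≤ 1) (ν : Measure UnitAddCircle) [IsFiniteMeasure ν]
    (hν : ∀ n : ℤ, ∫ x, fourier n x ∂ν = gamZ m S H n) (x : UnitAddCircle) {φ : Ω → ℂ}
    (hφ : Measurable φ) (bφ : ∀ ω, ‖φ ω‖ ≤ 1)
    (hlim : Tendsto (fun N : ℕ => ∫ ω, ‖Av S H (fun n => (conj (fourier 1 x : ℂ)) ^ n) N ω -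
      φ ω‖ ^ 2 ∂m) atTop (𝓝 0)) (d : ℕ) :
    ∫ ω, H (S^[d] ω) * conj (φ ω) ∂m = (fourier 1 x : ℂ) ^ d * (ν.real {x} : ℂ) := by
  set ζ : ℂ := fourier 1 x with hζ
  have hζ1 : ‖ζ‖ = 1 := fourier_norm 1 x
  have hc : ∀ n : ℕ, ‖(conj ζ) ^ n‖ ≤ 1 := fun n => by
    rw [norm_pow, RCLike.norm_conj, hζ1, one_pow]
  have L1 := pair_lim (g := fun ω => H (S^[d] ω)) (fun N => av_meas (S := S) hH _ N) hφ
    (hH.comp (meas_iter d)) (fun N ω => av_bd (S := S) hb hc N ω) bφ (fun ω => hb _) hlim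
  -- the same limit, computed with the spectral measure
  have e1 : ∀ N : ℕ, ∫ ω, H (S^[d] ω) * conj (Av S H (fun n => (conj ζ) ^ n) N ω) ∂m =
      ∫ y, (fourier (d : ℤ) y : ℂ) * ((∑ n ∈ Icc 1 N, (ζ * fourier (-1) y) ^ n) / N) ∂ν := by
    intro N
    rw [pair_av (S := S) hH hb (g := fun ω => H (S^[d] ω)) (hH.comp (meas_iter d)) (fun ω => hb _)]
    have i2 : ∀ n : ℤ, Integrable (fun y => (fourier n y : ℂ)) ν := fun n =>
      int_bd (fourier n).continuous.measurable (C := 1) fun y => (fourier_norm n y).le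
    have e2 : ∀ n ∈ Icc 1 N, conj ((conj ζ) ^ n) * ∫ ω, H (S^[d] ω) * conj (H (S^[n] ω)) ∂m =
        ∫ y, ζ ^ n * (fourier ((d : ℤ) - n) y : ℂ) ∂ν := by
      intro n _
      rw [gamZ_nat hS, ← hν, map_pow, Complex.conj_conj, integral_const_mul]
    rw [Finset.sum_congr rfl e2, ← integral_finsetSum _ fun n _ => (i2 _).const_mul _,
      ← integral_div]
    refine integral_congr_ae (Eventually.of_forall fun y => ?_)
    show (∑ n ∈ Icc 1 N, ζ ^ n * (fourier ((d : ℤ) - n) y : ℂ)) / N =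
      (fourier (d : ℤ) y : ℂ) * ((∑ n ∈ Icc 1 N, (ζ * fourier (-1) y) ^ n) / N)
    rw [mul_div_assoc', Finset.mul_sum]
    congr 1
    refine Finset.sum_congr rfl fun n _ => ?_
    have e3 : (fourier ((d : ℤ) - n) y : ℂ) = fourier (d : ℤ) y * (fourier (-1) y) ^ n := by
      rw [sub_eq_add_neg, fourier_add, ← conj_fourier (n : ℤ), fourier_pow n y,
        ← conj_fourier 1, map_pow]
    rw [e3, mul_pow]
    ring
  have L2 : Tendsto (fun N : ℕ => ∫ y, (fourier (d : ℤ) y : ℂ) *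
      ((∑ n ∈ Icc 1 N, (ζ * fourier (-1) y) ^ n) / N) ∂ν) atTop
      (𝓝 (∫ y, (fourier (d : ℤ) y : ℂ) * (if ζ * fourier (-1) y = 1 then 1 else 0) ∂ν)) := by
    have hw : ∀ y : UnitAddCircle, ‖ζ * fourier (-1) y‖ = 1 := fun y => by
      rw [norm_mul, hζ1, fourier_norm, one_mul]
    refine tendsto_integral_of_dominated_convergence (fun _ => (1 : ℝ)) (fun N => ?_)
      (integrable_const _) (fun N => Eventually.of_forall fun y => ?_)
      (Eventually.of_forall fun y => ?_)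
    · refine Continuous.aestronglyMeasurable ?_
      have h1 := (fourier (T := (1 : ℝ)) (d : ℤ)).continuous
      have h2 := (fourier (T := (1 : ℝ)) (-1)).continuous
      refine h1.mul (Continuous.div_const ?_ _)
      exact continuous_finsetSum _ fun n _ => (continuous_const.mul h2).pow n
    · rw [norm_mul, fourier_norm, one_mul, norm_div, Complex.norm_natCast]
      apply div_le_one_of_le₀ _ (Nat.cast_nonneg N)
      calc ‖∑ n ∈ Icc 1 N, (ζ * fourier (-1) y) ^ n‖ ≤
            ∑ n ∈ Icc 1 N, ‖(ζ * fourier (-1) y) ^ n‖ := norm_sum_le _ _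
        _ = ∑ _n ∈ Icc 1 N, (1 : ℝ) :=
            Finset.sum_congr rfl fun n _ => by rw [norm_pow, hw y, one_pow]
        _ = N := by simp
    · exact (mean_pow (hw y)).const_mul _
  have e4 : ∀ y : UnitAddCircle, (ζ * fourier (-1) y = 1) ↔ y = x := by
    intro y
    have h1 : (fourier 1 y : ℂ) * fourier (-1) y = 1 := by
      rw [← conj_fourier, Complex.mul_conj, Complex.normSq_eq_norm_sq, fourier_norm]
      norm_num
    have h2 : (fourier (-1) y : ℂ) ≠ 0 := by
      intro h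
      rw [h, mul_zero] at h1
      exact zero_ne_one h1
    constructor
    · intro h
      have h3 : ζ * fourier (-1) y = fourier 1 y * fourier (-1) y := by rw [h, h1]
      exact (fourier_inj (mul_right_cancel₀ h2 h3)).symm
    · rintro rfl
      exact h1
  have e5 : ∫ y, (fourier (d : ℤ) y : ℂ) * (if ζ * fourier (-1) y = 1 then 1 else 0) ∂ν =
      ζ ^ d * (ν.real {x} : ℂ) := by
    have e6 : (fun y : UnitAddCircle => (fourier (d : ℤ) y : ℂ) *
        (if ζ * fourier (-1) y = 1 then 1 else 0)) =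
        Set.indicator {x} (fun y => (fourier (d : ℤ) y : ℂ)) := by
      funext y
      by_cases h : y = x
      · rw [if_pos ((e4 y).2 h), mul_one, Set.indicator_of_mem (by simpa using h)]
      · rw [if_neg fun h' => h ((e4 y).1 h'), mul_zero, Set.indicator_of_notMem (by simpa using h)]
    rw [e6, integral_indicator (measurableSet_singleton x), integral_singleton, fourier_pow,
      Complex.real_smul]
    ring
  rw [e5] at L2
  have L3 := L2.congr fun N => (e1 N).symm
  exact tendsto_nhds_unique L1 L3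

/-- the gauge: two square integrals of eigenfunctions -/
theorem eig_orth [IsProbabilityMeasure m] (hS : MeasurePreserving S m m) {φ ψ : Ω → ℂ} {ζ ξ : ℂ}
    (hζ : ‖ζ‖ = 1) (hne : ζ ≠ ξ) (hξ : ‖ξ‖ = 1)
    (h1 : ∀ᵐ ω ∂m, φ (S ω) = ζ * φ ω) (h2 : ∀ᵐ ω ∂m, ψ (S ω) = ξ * ψ ω) :
    ∫ ω, φ ω * conj (ψ ω) ∂m = 0 := by
  have e1 : ∫ ω, φ ω * conj (ψ ω) ∂m = ∫ ω, φ (S ω) * conj (ψ (S ω)) ∂m :=
    (hS.integral_comp' (fun ω => φ ω * conj (ψ ω))).symm
  have e2 : ∫ ω, φ (S ω) * conj (ψ (S ω)) ∂m = (ζ * conj ξ) * ∫ ω, φ ω * conj (ψ ω) ∂m := by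
    rw [← integral_const_mul]
    refine integral_congr_ae ?_
    filter_upwards [h1, h2] with ω a b
    rw [a, b, map_mul]
    ring
  have e3 : (1 - ζ * conj ξ) * ∫ ω, φ ω * conj (ψ ω) ∂m = 0 := by
    rw [sub_mul, one_mul, ← e2, ← e1, sub_self]
  rcases mul_eq_zero.1 e3 with h | h
  · exfalso
    apply hne
    have h4 : ζ * conj ξ = 1 := (sub_eq_zero.1 h).symm
    have h5 : conj ξ * ξ = 1 := by
      rw [mul_comm, Complex.mul_conj, Complex.normSq_eq_norm_sq, hξ]
      norm_num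
    calc ζ = ζ * (conj ξ * ξ) := by rw [h5, mul_one]
      _ = ζ * conj ξ * ξ := by ring
      _ = ξ := by rw [h4, one_mul]
  · exact h

end spectral

theorem exists_enum (ν : Measure UnitAddCircle) [IsFiniteMeasure ν] {η : ℝ} (hη : 0 < η) :
    ∃ (k : ℕ) (x : Fin k → UnitAddCircle), Function.Injective x ∧
      ∀ y, η < ν.real {y} → ∃ i, x i = y := by
  classical
  have hfin : Set.Finite {y : UnitAddCircle | ENNReal.ofReal η ≤ ν {y}} :=
    Measure.finite_const_le_meas_of_disjoint_iUnion ν (ENNReal.ofReal_pos.2 hη)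
      (fun y => measurableSet_singleton y)
      (fun a b hab => Set.disjoint_singleton.2 hab) (measure_ne_top ν _)
  refine ⟨hfin.toFinset.card, fun i => (hfin.toFinset.equivFin.symm i : UnitAddCircle), ?_, ?_⟩
  · intro i j hij
    exact hfin.toFinset.equivFin.symm.injective (Subtype.ext hij)
  · intro y hy
    have h1 : y ∈ hfin.toFinset := by
      rw [Set.Finite.mem_toFinset]
      show ENNReal.ofReal η ≤ ν {y}
      rw [← ENNReal.ofReal_toReal (measure_ne_top ν {y})]
      exact ENNReal.ofReal_le_ofReal hy.le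
    refine ⟨hfin.toFinset.equivFin ⟨y, h1⟩, ?_⟩
    simp

theorem pf_DEC (h1 : T_HER) (h2 : T_WIE) (h3 : T_MEG.{v}) : T_DEC.{v} := by
  classical
  intro Ω _ m _ S hS H hH hb δ hδ
  obtain ⟨ν, hfin, hν⟩ := h1 (gamZ m S H) (pd_gamZ hS hH hb)
  have hη : 0 < δ / 2 := by linarith
  obtain ⟨k, x, hinj, hx⟩ := exists_enum ν hη
  choose φ hφm hφb hφe hφl using fun y : UnitAddCircle =>
    h3 Ω m S hS H hH hb (fourier 1 y) (fourier_norm 1 y)
  refine ⟨k, fun i => φ (x i), fun i => fourier 1 (x i), fun i => fourier_norm 1 _,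
    fun i => hφm _, fun i => hφb _, fun i => hφe _, ?_⟩
  -- (a)
  have fa : ∀ (i : Fin k) (d : ℕ), ∫ ω, H (S^[d] ω) * conj (φ (x i) ω) ∂m =
      (fourier 1 (x i) : ℂ) ^ d * (ν.real {x i} : ℂ) := fun i d =>
    pair_eig hS hH hb ν hν (x i) (hφm _) (hφb _) (hφl _) d
  have hae : ∀ (i : Fin k) (d : ℕ), ∀ᵐ ω ∂m, φ (x i) (S^[d] ω) =
      (fourier 1 (x i) : ℂ) ^ d * φ (x i) ω := fun i d => ae_iter hS (hφe _) d
  -- (b)
  have fb : ∀ (i : Fin k) (d : ℕ), ∫ ω, φ (x i) (S^[d] ω) * conj (H ω) ∂m =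
      (fourier 1 (x i) : ℂ) ^ d * (ν.real {x i} : ℂ) := by
    intro i d
    have e0 := fa i 0
    rw [pow_zero, one_mul] at e0
    have e1 : ∫ ω, φ (x i) ω * conj (H ω) ∂m = (ν.real {x i} : ℂ) := by
      have e2 : ∫ ω, φ (x i) ω * conj (H ω) ∂m = conj (∫ ω, H (S^[0] ω) * conj (φ (x i) ω) ∂m) := by
        rw [← integral_conj]
        refine integral_congr_ae (Eventually.of_forall fun ω => ?_)
        show φ (x i) ω * conj (H ω) = conj (H ω * conj (φ (x i) ω))
        rw [map_mul, Complex.conj_conj]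
        ring
      rw [e2, e0, Complex.conj_ofReal]
    rw [← e1, ← integral_const_mul]
    refine integral_congr_ae ?_
    filter_upwards [hae i d] with ω a
    rw [a]
    ring
  -- the square norms
  have fc0 : ∀ i : Fin k, ∫ ω, φ (x i) ω * conj (φ (x i) ω) ∂m = (ν.real {x i} : ℂ) := by
    intro i
    set ζ : ℂ := fourier 1 (x i) with hζ
    have hζ1 : ‖ζ‖ = 1 := fourier_norm 1 _
    have hc : ∀ n : ℕ, ‖(conj ζ) ^ n‖ ≤ 1 := fun n => by
      rw [norm_pow, RCLike.norm_conj, hζ1, one_pow]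
    have L1 := pair_lim (g := φ (x i)) (fun N => av_meas (S := S) hH (fun n => (conj ζ) ^ n) N)
      (hφm (x i)) (hφm (x i)) (fun N ω => av_bd (S := S) hb hc N ω) (hφb _) (hφb _) (hφl (x i))
    have e1 : ∀ N : ℕ, 1 ≤ N →
        ∫ ω, φ (x i) ω * conj (Av S H (fun n => (conj ζ) ^ n) N ω) ∂m = (ν.real {x i} : ℂ) := by
      intro N hN
      rw [pair_av (S := S) hH hb (hφm _) (hφb _)]
      have e2 : ∀ n ∈ Icc 1 N, conj ((conj ζ) ^ n) *
          ∫ ω, φ (x i) ω * conj (H (S^[n] ω)) ∂m = (ν.real {x i} : ℂ) := by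
        intro n _
        have e3 : ∫ ω, φ (x i) ω * conj (H (S^[n] ω)) ∂m =
            conj (∫ ω, H (S^[n] ω) * conj (φ (x i) ω) ∂m) := by
          rw [← integral_conj]
          refine integral_congr_ae (Eventually.of_forall fun ω => ?_)
          show φ (x i) ω * conj (H (S^[n] ω)) = conj (H (S^[n] ω) * conj (φ (x i) ω))
          rw [map_mul, Complex.conj_conj]
          ring
        have e4 : ζ * conj ζ = 1 := by
          rw [Complex.mul_conj, Complex.normSq_eq_norm_sq, hζ1]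
          norm_num
        rw [e3, fa, map_mul, Complex.conj_ofReal, map_pow, map_pow, Complex.conj_conj,
          ← mul_assoc, ← mul_pow, e4, one_pow, one_mul]
      rw [Finset.sum_congr rfl e2, Finset.sum_const, Nat.card_Icc, add_tsub_cancel_right,
        nsmul_eq_mul]
      have : (N : ℂ) ≠ 0 := by exact_mod_cast (by omega : N ≠ 0)
      field_simp
    have L2 : Tendsto (fun N : ℕ => ∫ ω, φ (x i) ω *
        conj (Av S H (fun n => (conj ζ) ^ n) N ω) ∂m) atTop (𝓝 (ν.real {x i} : ℂ)) := by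
      refine tendsto_const_nhds.congr' ?_
      filter_upwards [eventually_ge_atTop 1] with N hN
      exact (e1 N hN).symm
    exact tendsto_nhds_unique L1 L2
  -- (c)
  have fc : ∀ (i j : Fin k) (d : ℕ), ∫ ω, φ (x i) (S^[d] ω) * conj (φ (x j) ω) ∂m =
      if i = j then (fourier 1 (x i) : ℂ) ^ d * (ν.real {x i} : ℂ) else 0 := by
    intro i j d
    have e1 : ∫ ω, φ (x i) (S^[d] ω) * conj (φ (x j) ω) ∂m =
        (fourier 1 (x i) : ℂ) ^ d * ∫ ω, φ (x i) ω * conj (φ (x j) ω) ∂m := by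
      rw [← integral_const_mul]
      refine integral_congr_ae ?_
      filter_upwards [hae i d] with ω a
      rw [a]
      ring
    rw [e1]
    by_cases h : i = j
    · rw [if_pos h, ← h, fc0]
    · rw [if_neg h, eig_orth hS (fourier_norm 1 _) (fun h' => h (hinj (fourier_inj h')))
        (fourier_norm 1 _) (hφe _) (hφe _), mul_zero]
  -- the correlations of the rest
  set As : Finset UnitAddCircle := Finset.univ.image x with hAs
  have hgam : ∀ d : ℕ, gam m S (fun ω => H ω - ∑ i, φ (x i) ω) d =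
      ∫ y, fourier (d : ℤ) y ∂(ν.restrict (As : Set UnitAddCircle)ᶜ) := by
    intro d
    have iHH : Integrable (fun ω => H (S^[d] ω) * conj (H ω)) m :=
      int_mul (hH.comp (meas_iter d)) hH (fun ω => hb _) hb
    have iHφ : ∀ i, Integrable (fun ω => H (S^[d] ω) * conj (φ (x i) ω)) m := fun i =>
      int_mul (hH.comp (meas_iter d)) (hφm _) (fun ω => hb _) (hφb _)
    have iφH : ∀ i, Integrable (fun ω => φ (x i) (S^[d] ω) * conj (H ω)) m := fun i =>
      int_mul ((hφm _).comp (meas_iter d)) hH (fun ω => hφb _ _) hb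
    have iφφ : ∀ i j, Integrable (fun ω => φ (x i) (S^[d] ω) * conj (φ (x j) ω)) m := fun i j =>
      int_mul ((hφm _).comp (meas_iter d)) (hφm _) (fun ω => hφb _ _) (hφb _)
    have e1 : (fun ω => (H (S^[d] ω) - ∑ i, φ (x i) (S^[d] ω)) * conj (H ω - ∑ i, φ (x i) ω)) =
        fun ω => (H (S^[d] ω) * conj (H ω) - ∑ i, H (S^[d] ω) * conj (φ (x i) ω)) -
          ((∑ i, φ (x i) (S^[d] ω) * conj (H ω)) -
            ∑ i, ∑ j, φ (x i) (S^[d] ω) * conj (φ (x j) ω)) := by
      funext ω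
      rw [map_sub, map_sum, ← Finset.sum_mul_sum, ← Finset.sum_mul, ← Finset.mul_sum]
      ring
    have i1 : Integrable (fun ω => ∑ i, H (S^[d] ω) * conj (φ (x i) ω)) m :=
      integrable_finsetSum _ fun i _ => iHφ i
    have i2 : Integrable (fun ω => ∑ i, φ (x i) (S^[d] ω) * conj (H ω)) m :=
      integrable_finsetSum _ fun i _ => iφH i
    have i3 : Integrable (fun ω => ∑ i, ∑ j, φ (x i) (S^[d] ω) * conj (φ (x j) ω)) m :=
      integrable_finsetSum _ fun i _ => integrable_finsetSum _ fun j _ => iφφ i j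
    have i4 : Integrable (fun ω => H (S^[d] ω) * conj (H ω) -
        ∑ i, H (S^[d] ω) * conj (φ (x i) ω)) m := iHH.sub i1
    have i5 : Integrable (fun ω => (∑ i, φ (x i) (S^[d] ω) * conj (H ω)) -
        ∑ i, ∑ j, φ (x i) (S^[d] ω) * conj (φ (x j) ω)) m := i2.sub i3
    have e2 : gam m S (fun ω => H ω - ∑ i, φ (x i) ω) d =
        ∫ ω, H (S^[d] ω) * conj (H ω) ∂m -
          ∑ i, (fourier 1 (x i) : ℂ) ^ d * (ν.real {x i} : ℂ) := by
      unfold gam
      rw [e1, integral_sub i4 i5, integral_sub iHH i1, integral_sub i2 i3,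
        integral_finsetSum _ fun i _ => iHφ i, integral_finsetSum _ fun i _ => iφH i,
        integral_finsetSum _ fun i _ => integrable_finsetSum _ fun j _ => iφφ i j]
      have e3 : ∀ i, ∫ ω, ∑ j, φ (x i) (S^[d] ω) * conj (φ (x j) ω) ∂m =
          (fourier 1 (x i) : ℂ) ^ d * (ν.real {x i} : ℂ) := by
        intro i
        rw [integral_finsetSum _ fun j _ => iφφ i j]
        rw [Finset.sum_congr rfl fun j _ => fc i j d, Finset.sum_ite_eq,
          if_pos (Finset.mem_univ _)]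
      rw [Finset.sum_congr rfl fun i _ => fa i d, Finset.sum_congr rfl fun i _ => fb i d,
        Finset.sum_congr rfl fun i _ => e3 i]
      ring
    have hfi : Integrable (fun y => (fourier (d : ℤ) y : ℂ)) ν :=
      int_bd (fourier (d : ℤ)).continuous.measurable (C := 1) fun y => (fourier_norm _ y).le
    have e4 : ∫ ω, H (S^[d] ω) * conj (H ω) ∂m = ∫ y, fourier (d : ℤ) y ∂ν := by
      rw [hν]
      have h0 := gamZ_nat (H := H) hS d 0
      have h5 : ((d : ℕ) : ℤ) - ((0 : ℕ) : ℤ) = d := by push_cast; ring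
      rw [h5] at h0
      exact h0
    have e5 : ∫ y in (As : Set UnitAddCircle), (fourier (d : ℤ) y : ℂ) ∂ν =
        ∑ i, (fourier 1 (x i) : ℂ) ^ d * (ν.real {x i} : ℂ) := by
      rw [setIntegral_finset As hfi.integrableOn, hAs, Finset.sum_image fun i _ j _ h => hinj h]
      refine Finset.sum_congr rfl fun i _ => ?_
      rw [Complex.real_smul, fourier_pow]
      ring
    rw [e2, e4, ← e5, ← integral_add_compl (As.measurableSet) hfi]
    ring
  -- the lemma of Wiener
  have hatom : ∀ y, (ν.restrict (As : Set UnitAddCircle)ᶜ).real {y} ≤ δ / 2 := by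
    intro y
    by_cases hy : y ∈ As
    · have : (ν.restrict (As : Set UnitAddCircle)ᶜ) {y} = 0 := by
        rw [Measure.restrict_apply (measurableSet_singleton y)]
        have : ({y} : Set UnitAddCircle) ∩ (As : Set UnitAddCircle)ᶜ = ∅ := by
          ext z
          simp only [Set.mem_inter_iff, Set.mem_singleton_iff, Set.mem_compl_iff,
            Set.mem_empty_iff_false, iff_false, not_and, not_not]
          rintro rfl
          exact hy
        rw [this, measure_empty]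
      rw [measureReal_def, this]
      simpa using hη.le
    · have h5 : (ν.restrict (As : Set UnitAddCircle)ᶜ).real {y} ≤ ν.real {y} := by
        rw [measureReal_def, measureReal_def]
        exact ENNReal.toReal_mono (measure_ne_top ν _) (Measure.restrict_apply_le _ _)
      refine h5.trans ?_
      by_contra hlt
      push Not at hlt
      obtain ⟨i, hi⟩ := hx y hlt
      apply hy
      rw [hAs, Finset.mem_image]
      exact ⟨i, Finset.mem_univ i, hi⟩
  have hmass : (ν.restrict (As : Set UnitAddCircle)ᶜ).real Set.univ ≤ 1 := by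
    have h5 : (ν.restrict (As : Set UnitAddCircle)ᶜ).real Set.univ ≤ ν.real Set.univ := by
      rw [measureReal_def, measureReal_def]
      exact ENNReal.toReal_mono (measure_ne_top ν _) (Measure.restrict_apply_le _ _)
    refine h5.trans ?_
    have h6 : (ν.real Set.univ : ℂ) = ∫ ω, H ω * conj (H ω) ∂m := by
      have h7 := hν 0
      have h8 : ∫ y, (fourier (0 : ℤ) y : ℂ) ∂ν = (ν.real Set.univ : ℂ) := by
        have : (fun y : UnitAddCircle => (fourier (0 : ℤ) y : ℂ)) = fun _ => 1 := by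
          funext y; simp
        rw [this, integral_const, Complex.real_smul, mul_one]
      rw [← h8, h7]
      rfl
    have h9 : ∫ ω, H ω * conj (H ω) ∂m = ((∫ ω, ‖H ω‖ ^ 2 ∂m : ℝ) : ℂ) := by
      rw [← integral_complex_ofReal]
      refine integral_congr_ae (Eventually.of_forall fun ω => ?_)
      show H ω * conj (H ω) = ((‖H ω‖ ^ 2 : ℝ) : ℂ)
      rw [Complex.mul_conj, Complex.normSq_eq_norm_sq]
    rw [h9] at h6
    have h10 : ν.real Set.univ = ∫ ω, ‖H ω‖ ^ 2 ∂m := by exact_mod_cast h6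
    rw [h10]
    have h11 : ∫ ω, ‖H ω‖ ^ 2 ∂m ≤ ∫ _ω, (1 : ℝ) ∂m := by
      apply integral_mono_of_nonneg (Eventually.of_forall fun ω => sq_nonneg _)
        (integrable_const _) (Eventually.of_forall fun ω => ?_)
      exact pow_le_one₀ (norm_nonneg _) (hb ω)
    refine h11.trans ?_
    simp
  have hW := h2 (ν.restrict (As : Set UnitAddCircle)ᶜ) (δ / 2) hatom (δ / 2) hη
  filter_upwards [hW] with N hN
  have e1 : (∑ d ∈ range N, ‖gam m S (fun ω => H ω - ∑ i, φ (x i) ω) d‖ ^ 2) / N =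
      (∑ n ∈ range N, ‖∫ x, fourier (n : ℤ) x ∂(ν.restrict (As : Set UnitAddCircle)ᶜ)‖ ^ 2) / N := by
    congr 1
    exact Finset.sum_congr rfl fun d _ => by rw [hgam d]
  rw [e1]
  refine hN.trans ?_
  nlinarith

end Pool.Agent.H35.RTB
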