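import Pool.Agent.H94.RTB.Targets
import Pool.Agent.H4.PF.RBI

/-!
# Row R_ZG: almost every point of an ergodic system has small self-correlations
-/

set_option autoImplicit false

namespace Pool.Agent.H35.RTB.ZG

open Pool.Agent.H94.RTB MeasureTheory Filter Topology Finset
open scoped ComplexConjugate NNReal

universe v

/-! ### The largest correlation -/

theorem mcor_nonneg (a b : ℕ → ℂ) (M L : ℕ) : 0 ≤ mcor a b M L := NNReal.coe_nonneg _

theorem mcor_le {a b : ℕ → ℂ} {M L : ℕ} {c : ℝ} (hc : 0 ≤ c)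
    (h : ∀ n, M ≤ n → n ≤ L → ‖cor a b n‖ ≤ c) : mcor a b M L ≤ c := by
  lift c to ℝ≥0 using hc
  unfold mcor
  rw [NNReal.coe_le_coe]
  refine Finset.sup_le fun n hn => ?_
  rw [Finset.mem_Icc] at hn
  exact_mod_cast h n hn.1 hn.2

theorem le_mcor {a b : ℕ → ℂ} {M L n : ℕ} (h1 : M ≤ n) (h2 : n ≤ L) :
    ‖cor a b n‖ ≤ mcor a b M L := by
  unfold mcor
  have h : ‖cor a b n‖₊ ≤ (Icc M L).sup fun n => ‖cor a b n‖₊ :=
    Finset.le_sup (f := fun n => ‖cor a b n‖₊) (Finset.mem_Icc.2 ⟨h1, h2⟩)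
  exact_mod_cast h

theorem cor_bd {a b : ℕ → ℂ} {A B : ℝ} {n : ℕ} (hA : 0 ≤ A) (hB : 0 ≤ B)
    (ha : ∀ r, 1 ≤ r → r ≤ n → ‖a r‖ ≤ A) (hb : ∀ r, ‖b r‖ ≤ B) : ‖cor a b n‖ ≤ A * B := by
  unfold cor
  rw [norm_div, Complex.norm_natCast]
  apply div_le_of_le_mul₀ (Nat.cast_nonneg n) (mul_nonneg hA hB)
  calc ‖∑ r ∈ Icc 1 n, a r * conj (b r)‖ ≤ ∑ r ∈ Icc 1 n, ‖a r * conj (b r)‖ := norm_sum_le _ _
    _ ≤ ∑ _r ∈ Icc 1 n, A * B := by
        refine Finset.sum_le_sum fun r hr => ?_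
        rw [Finset.mem_Icc] at hr
        rw [norm_mul, RCLike.norm_conj]
        exact mul_le_mul (ha r hr.1 hr.2) (hb r) (norm_nonneg _) hA
    _ = A * B * n := by
        rw [Finset.sum_const, Nat.card_Icc, add_tsub_cancel_right, nsmul_eq_mul]
        ring

theorem cor_sub (a a' b : ℕ → ℂ) (n : ℕ) :
    cor a b n - cor a' b n = cor (fun r => a r - a' r) b n := by
  unfold cor
  rw [← sub_div, ← Finset.sum_sub_distrib]
  congr 1
  exact Finset.sum_congr rfl fun r _ => by ring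

theorem mcor_close {a a' b : ℕ → ℂ} {η B : ℝ} {M L : ℕ} (hη : 0 ≤ η) (hB : 0 ≤ B)
    (ha : ∀ r, 1 ≤ r → r ≤ L → ‖a r - a' r‖ ≤ η) (hb : ∀ r, ‖b r‖ ≤ B) :
    mcor a b M L ≤ mcor a' b M L + η * B := by
  apply mcor_le (add_nonneg (mcor_nonneg _ _ _ _) (mul_nonneg hη hB))
  intro n h1 h2
  have h3 : ‖cor a b n - cor a' b n‖ ≤ η * B := by
    rw [cor_sub]
    exact cor_bd hη hB (fun r hr1 hr2 => ha r hr1 (hr2.trans h2)) hb
  have h4 := le_mcor (a := a') (b := b) h1 h2
  have h5 : ‖cor a b n‖ ≤ ‖cor a b n - cor a' b n‖ + ‖cor a' b n‖ := by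
    have := norm_add_le (cor a b n - cor a' b n) (cor a' b n)
    rwa [sub_add_cancel] at this
  linarith

section meas

variable {Ω : Type v} [MeasurableSpace Ω] {m : Measure Ω} {S : Ω ≃ᵐ Ω} {q : Ω → ℂ}

theorem meas_it (n : ℕ) : Measurable (S^[n] : Ω → Ω) := S.measurable.iterate n

theorem meas_cor (hq : Measurable q) (a : ℕ → ℂ) (n : ℕ) :
    Measurable fun ξ => cor a (fun r => q (S^[r] ξ)) n := by
  unfold cor
  refine Measurable.div_const ?_ _
  exact Finset.measurable_sum _ fun r _ =>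
    (Complex.continuous_conj.measurable.comp (hq.comp (meas_it r))).const_mul _

theorem meas_sup (F : ℕ → Ω → ℝ≥0) (hF : ∀ n, Measurable (F n)) (s : Finset ℕ) :
    Measurable fun ξ => s.sup fun n => F n ξ := by
  induction s using Finset.induction_on with
  | empty =>
    simp only [Finset.sup_empty]
    exact measurable_const
  | insert j s hj ih =>
    simp only [Finset.sup_insert]
    exact (hF j).sup ih

theorem meas_mcor (hq : Measurable q) (a : ℕ → ℂ) (M L : ℕ) :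
    Measurable fun ξ => mcor a (fun r => q (S^[r] ξ)) M L := by
  unfold mcor
  exact (meas_sup (fun n ξ => ‖cor a (fun r => q (S^[r] ξ)) n‖₊)
    (fun n => (meas_cor hq a n).nnnorm) _).coe_nnreal_real

theorem sq_int_le' [IsProbabilityMeasure m] {h : Ω → ℝ} (hm : Measurable h) {C : ℝ}
    (hb : ∀ ω, |h ω| ≤ C) : (∫ ω, h ω ∂m) ^ 2 ≤ ∫ ω, h ω ^ 2 ∂m := by
  have i1 : Integrable h m := Integrable.of_bound hm.aestronglyMeasurable C
    (Eventually.of_forall fun ω => by rw [Real.norm_eq_abs]; exact hb ω)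
  have i2 : Integrable (fun ω => h ω ^ 2) m :=
    Integrable.of_bound (hm.pow_const 2).aestronglyMeasurable (C ^ 2)
      (Eventually.of_forall fun ω => by
        rw [Real.norm_eq_abs, abs_pow]
        exact pow_le_pow_left₀ (abs_nonneg _) (hb ω) 2)
  set c : ℝ := ∫ ω, h ω ∂m with hc
  have h1 : 0 ≤ ∫ ω, (h ω - c) ^ 2 ∂m := integral_nonneg fun _ => sq_nonneg _
  have h2 : ∫ ω, (h ω - c) ^ 2 ∂m = (∫ ω, h ω ^ 2 ∂m) - c ^ 2 := by
    have e : (fun ω => (h ω - c) ^ 2) = fun ω => h ω ^ 2 - ((2 * c) * h ω - c ^ 2) := by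
      funext ω; ring
    have i3 : Integrable (fun ω => (2 * c) * h ω - c ^ 2) m :=
      (i1.const_mul _).sub (integrable_const _)
    rw [e, integral_sub i2 i3, integral_sub (i1.const_mul _) (integrable_const _),
      integral_const_mul, ← hc]
    simp
    ring
  linarith

end meas

/-- uniformity: the mean over `ξ` of the largest correlation of length at least `M` -/
theorem uniform {Ω : Type v} [MeasurableSpace Ω] {m : Measure Ω} [IsProbabilityMeasure m]
    {S : Ω ≃ᵐ Ω} {q : Ω → ℂ} (hq : Measurable q) {C : ℝ} (hC : 0 ≤ C) (hb : ∀ ω, ‖q ω‖ ≤ C)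
    (w : ℕ → ℂ) (hw : ∀ r, ‖w r‖ ≤ C) (kk : Ω → ℂ) (hk : Measurable kk) (hkb : ∀ ξ, ‖kk ξ‖ ≤ C ^ 2)
    (hlim : ∀ᵐ ξ ∂m, Tendsto (fun N => cor w (fun r => q (S^[r] ξ)) N) atTop (𝓝 (kk ξ)))
    {ε : ℝ} (hε : 0 < ε) :
    ∃ M : ℕ, ∀ L : ℕ, ∫ ξ, mcor w (fun r => q (S^[r] ξ)) M L ∂m ≤ (∫ ξ, ‖kk ξ‖ ∂m) + ε := by
  by_contra hcon
  push Not at hcon
  choose L hL using hcon
  set D : ℕ → Ω → ℝ := fun M ξ => mcor w (fun r => q (S^[r] ξ)) M (L M) with hD
  have hDm : ∀ M, Measurable (D M) := fun M => meas_mcor hq w M (L M)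
  have hDb : ∀ M ξ, D M ξ ≤ C ^ 2 := by
    intro M ξ
    apply mcor_le (sq_nonneg C)
    intro n _ _
    rw [pow_two]
    exact cor_bd hC hC (fun r _ _ => hw r) (fun r => hb _)
  have hD0 : ∀ M ξ, 0 ≤ D M ξ := fun M ξ => mcor_nonneg _ _ _ _
  have hT : Tendsto (fun M => ∫ ξ, max (D M ξ) ‖kk ξ‖ ∂m) atTop (𝓝 (∫ ξ, ‖kk ξ‖ ∂m)) := by
    refine tendsto_integral_of_dominated_convergence (fun _ => C ^ 2) (fun M => ?_)
      (integrable_const _) (fun M => Eventually.of_forall fun ξ => ?_) ?_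
    · exact ((hDm M).max hk.norm).aestronglyMeasurable
    · rw [Real.norm_eq_abs, abs_of_nonneg (le_max_of_le_left (hD0 M ξ))]
      exact max_le (hDb M ξ) (hkb ξ)
    · filter_upwards [hlim] with ξ hξ
      rw [Metric.tendsto_atTop]
      intro η hη
      have h1 := (hξ.norm).eventually (gt_mem_nhds (show ‖kk ξ‖ < ‖kk ξ‖ + η / 2 by linarith))
      rw [eventually_atTop] at h1
      obtain ⟨M₀, hM₀⟩ := h1
      refine ⟨M₀, fun M hM => ?_⟩
      have h2 : D M ξ ≤ ‖kk ξ‖ + η / 2 := by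
        apply mcor_le (by positivity)
        intro n hn _
        exact (hM₀ n (hM.trans hn)).le
      rw [Real.dist_eq, abs_lt]
      constructor
      · have := le_max_right (D M ξ) ‖kk ξ‖
        linarith
      · have : max (D M ξ) ‖kk ξ‖ ≤ ‖kk ξ‖ + η / 2 := max_le h2 (by linarith)
        linarith
  have h1 := hT.eventually (gt_mem_nhds (show ∫ ξ, ‖kk ξ‖ ∂m < (∫ ξ, ‖kk ξ‖ ∂m) + ε by linarith))
  obtain ⟨M, hM⟩ := h1.exists
  have h2 := hL M
  have h3 : ∫ ξ, D M ξ ∂m ≤ ∫ ξ, max (D M ξ) ‖kk ξ‖ ∂m := by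
    apply integral_mono_of_nonneg (Eventually.of_forall fun ξ => hD0 M ξ)
    · refine Integrable.of_bound ((hDm M).max hk.norm).aestronglyMeasurable (C ^ 2)
        (Eventually.of_forall fun ξ => ?_)
      rw [Real.norm_eq_abs, abs_of_nonneg (le_max_of_le_left (hD0 M ξ))]
      exact max_le (hDb M ξ) (hkb ξ)
    · exact Eventually.of_forall fun ξ => le_max_left _ _
  have h4 : ∫ ξ, D M ξ ∂m = ∫ ξ, mcor w (fun r => q (S^[r] ξ)) M (L M) ∂m := rfl
  linarith

/-- rational sequences -/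
noncomputable def rs (f : ℕ →₀ ℕ) (r : ℕ) : ℂ := TopologicalSpace.denseSeq ℂ (f r)

theorem exists_rs (w : ℕ → ℂ) (L : ℕ) {η : ℝ} (hη : 0 < η) :
    ∃ f : ℕ →₀ ℕ, ∀ r, r ≤ L → ‖w r - rs f r‖ ≤ η := by
  have h1 : ∀ r, ∃ n, ‖w r - TopologicalSpace.denseSeq ℂ n‖ ≤ η := by
    intro r
    obtain ⟨n, hy⟩ := (TopologicalSpace.denseRange_denseSeq ℂ).exists_dist_lt (w r) hη
    exact ⟨n, by rw [← dist_eq_norm]; exact hy.le⟩
  choose n hn using h1
  classical
  refine ⟨Finsupp.onFinset (Finset.range (L + 1)) (fun r => if r ≤ L then n r else 0) ?_, ?_⟩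
  · intro r hr
    rw [Finset.mem_range]
    by_contra h
    apply hr
    rw [if_neg (by omega)]
  · intro r hr
    unfold rs
    rw [Finsupp.onFinset_apply, if_pos hr]
    exact hn r

theorem pf_ZG (h1 : T_PRD.{v}) : T_ZG.{v} := by
  intro Ω _ m _ S hS q C δ hq hb hδ hgam
  have hne : Nonempty Ω := nonempty_of_isProbabilityMeasure m
  have hC : 0 ≤ C := (norm_nonneg _).trans (hb hne.some)
  have hmp : MeasurePreserving S m m := hS.toMeasurePreserving
  obtain ⟨k, hk, hkb, hlim, hk2⟩ := h1 Ω m S hmp q C δ hq hb hδ hgam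
  set κ : Ω → ℝ := fun ω => ∫ ξ, ‖k (ω, ξ)‖ ∂m with hκ
  have hkω : ∀ ω, Measurable fun ξ => k (ω, ξ) := fun ω => hk.comp measurable_prodMk_left
  have hκm : Measurable κ := by
    have h2 : StronglyMeasurable fun z : Ω × Ω => ‖k z‖ := hk.norm.stronglyMeasurable
    exact h2.integral_prod_right.measurable
  have hκ0 : ∀ ω, 0 ≤ κ ω := fun ω => integral_nonneg fun ξ => norm_nonneg _
  have hκC : ∀ ω, κ ω ≤ C ^ 2 := by
    intro ω
    have h2 : κ ω ≤ ∫ _ξ, C ^ 2 ∂m := by
      apply integral_mono_of_nonneg (Eventually.of_forall fun ξ => norm_nonneg _)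
        (integrable_const _) (Eventually.of_forall fun ξ => hkb _)
    refine h2.trans ?_
    simp
  refine ⟨κ, hκm, fun ω => ⟨hκ0 ω, hκC ω⟩, ?_, ?_⟩
  · have h2 : ∀ ω, κ ω ^ 2 ≤ ∫ ξ, ‖k (ω, ξ)‖ ^ 2 ∂m := fun ω =>
      sq_int_le' (hkω ω).norm (C := C ^ 2) fun ξ => by
        rw [abs_of_nonneg (norm_nonneg _)]; exact hkb _
    have hi : Integrable (fun z : Ω × Ω => ‖k z‖ ^ 2) (m.prod m) :=
      Integrable.of_bound (hk.norm.pow_const 2).aestronglyMeasurable ((C ^ 2) ^ 2)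
        (Eventually.of_forall fun z => by
          rw [Real.norm_eq_abs, abs_of_nonneg (sq_nonneg _)]
          exact pow_le_pow_left₀ (norm_nonneg _) (hkb z) 2)
    have h3 : ∫ z, ‖k z‖ ^ 2 ∂(m.prod m) = ∫ ω, ∫ ξ, ‖k (ω, ξ)‖ ^ 2 ∂m ∂m := integral_prod _ hi
    refine le_trans ?_ (h3 ▸ hk2)
    apply integral_mono_of_nonneg (Eventually.of_forall fun ω => sq_nonneg _)
      hi.integral_prod_left (Eventually.of_forall h2)
  · -- the ergodic theorem for the countable family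
    have hmeas : ∀ (f : ℕ →₀ ℕ) (M L : ℕ),
        Measurable fun ξ => mcor (rs f) (fun r => q (S^[r] ξ)) M L := fun f M L =>
      meas_mcor hq (rs f) M L
    have hbd : ∀ (f : ℕ →₀ ℕ) (L : ℕ), ∃ B : ℝ, 0 ≤ B ∧ ∀ (M : ℕ) (ξ : Ω),
        mcor (rs f) (fun r => q (S^[r] ξ)) M L ≤ B := by
      intro f L
      refine ⟨(∑ r ∈ range (L + 1), ‖rs f r‖) * C, mul_nonneg
        (Finset.sum_nonneg fun r _ => norm_nonneg _) hC, fun M ξ => ?_⟩
      apply mcor_le (mul_nonneg (Finset.sum_nonneg fun r _ => norm_nonneg _) hC)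
      intro n _ hn
      apply cor_bd (Finset.sum_nonneg fun r _ => norm_nonneg _) hC _ (fun r => hb _)
      intro r _ hr
      exact Finset.single_le_sum (f := fun r => ‖rs f r‖) (fun r _ => norm_nonneg _)
        (Finset.mem_range.2 (by omega))
    have herg : ∀ᵐ ω ∂m, ∀ (f : ℕ →₀ ℕ) (M L : ℕ),
        Tendsto (fun Q : ℕ => (∑ p ∈ range Q,
          mcor (rs f) (fun r => q (S^[r] (S^[p] ω))) M L) / Q) atTop
          (𝓝 (∫ ξ, mcor (rs f) (fun r => q (S^[r] ξ)) M L ∂m)) := by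
      rw [ae_all_iff]
      intro f
      rw [ae_all_iff]
      intro M
      rw [ae_all_iff]
      intro L
      obtain ⟨B, hB0, hB⟩ := hbd f L
      exact Pool.Agent.H4.PF.birkhoff_erg m hS (hmeas f M L) (C := B) fun ξ => by
        rw [abs_of_nonneg (mcor_nonneg _ _ _ _)]
        exact hB M ξ
    have hpr := Measure.ae_ae_of_ae_prod hlim
    filter_upwards [herg, hpr] with ω hω1 hω2
    intro ε hε
    set w : ℕ → ℂ := fun n => q (S^[n] ω) with hw
    obtain ⟨M, hM⟩ := uniform (S := S) hq hC hb w (fun r => hb _) (fun ξ => k (ω, ξ)) (hkω ω)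
      (fun ξ => hkb _) hω2 (show 0 < ε / 4 by linarith)
    refine ⟨M, fun L => ?_⟩
    set η : ℝ := ε / (4 * (C + 1)) with hη
    have hη0 : 0 < η := by positivity
    have hηC : η * C ≤ ε / 4 := by
      rw [hη, div_mul_eq_mul_div, div_le_iff₀ (by positivity)]
      nlinarith
    obtain ⟨f, hf⟩ := exists_rs w L hη0
    have hint : ∫ ξ, mcor (rs f) (fun r => q (S^[r] ξ)) M L ∂m ≤ κ ω + ε / 2 := by
      have h2 : ∫ ξ, mcor (rs f) (fun r => q (S^[r] ξ)) M L ∂m ≤
          ∫ ξ, (mcor w (fun r => q (S^[r] ξ)) M L + η * C) ∂m := by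
        have hi : Integrable (fun ξ => mcor w (fun r => q (S^[r] ξ)) M L) m := by
          refine Integrable.of_bound (meas_mcor hq w M L).aestronglyMeasurable (C * C)
            (Eventually.of_forall fun ξ => ?_)
          rw [Real.norm_eq_abs, abs_of_nonneg (mcor_nonneg _ _ _ _)]
          apply mcor_le (mul_nonneg hC hC)
          intro n _ _
          exact cor_bd hC hC (fun r _ _ => hb _) (fun r => hb _)
        apply integral_mono_of_nonneg (Eventually.of_forall fun ξ => mcor_nonneg _ _ _ _)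
          (hi.add (integrable_const _)) (Eventually.of_forall fun ξ => ?_)
        apply mcor_close hη0.le hC (fun r _ hr => ?_) (fun r => hb _)
        rw [norm_sub_rev]
        exact hf r hr
      have h3 : ∫ ξ, (mcor w (fun r => q (S^[r] ξ)) M L + η * C) ∂m =
          (∫ ξ, mcor w (fun r => q (S^[r] ξ)) M L ∂m) + η * C := by
        have hi : Integrable (fun ξ => mcor w (fun r => q (S^[r] ξ)) M L) m := by
          refine Integrable.of_bound (meas_mcor hq w M L).aestronglyMeasurable (C * C)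
            (Eventually.of_forall fun ξ => ?_)
          rw [Real.norm_eq_abs, abs_of_nonneg (mcor_nonneg _ _ _ _)]
          apply mcor_le (mul_nonneg hC hC)
          intro n _ _
          exact cor_bd hC hC (fun r _ _ => hb _) (fun r => hb _)
        rw [integral_add hi (integrable_const _)]
        simp
      have h4 := hM L
      have h5 : κ ω = ∫ ξ, ‖k (ω, ξ)‖ ∂m := rfl
      rw [h3] at h2
      linarith
    have hev := (hω1 f M L).eventually (gt_mem_nhds
      (show ∫ ξ, mcor (rs f) (fun r => q (S^[r] ξ)) M L ∂m < κ ω + 3 * ε / 4 by linarith))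
    filter_upwards [hev, eventually_ge_atTop 1] with Q hQ hQ1
    have hQ0 : (0 : ℝ) < Q := by exact_mod_cast hQ1
    have h6 : (∑ p ∈ range Q, mcor w (fun r => w (r + p)) M L) / Q ≤
        (∑ p ∈ range Q, mcor (rs f) (fun r => q (S^[r] (S^[p] ω))) M L) / Q + η * C := by
      rw [div_add' _ _ _ hQ0.ne']
      apply div_le_div_of_nonneg_right _ hQ0.le
      calc ∑ p ∈ range Q, mcor w (fun r => w (r + p)) M L ≤
            ∑ p ∈ range Q, (mcor (rs f) (fun r => q (S^[r] (S^[p] ω))) M L + η * C) := by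
            refine Finset.sum_le_sum fun p _ => ?_
            have e : (fun r => w (r + p)) = fun r => q (S^[r] (S^[p] ω)) := by
              funext r
              show q (S^[r + p] ω) = q (S^[r] (S^[p] ω))
              rw [Function.iterate_add_apply]
            rw [e]
            exact mcor_close hη0.le hC (fun r _ hr => hf r hr) (fun r => hb _)
        _ = _ := by
            rw [Finset.sum_add_distrib, Finset.sum_const, Finset.card_range, nsmul_eq_mul]
            ring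
    linarith

end Pool.Agent.H35.RTB.ZG
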